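import Pool.Agent.Lib.MP_e83f70_co.Exist

/-!
# MP_e83f70_co: Schur positivity of `Delta_{s_λ} e_n` for `n ≤ 3` and all `λ`
-/

namespace Pool.Agent.Results.MP_e83f70_co.UpToThree

open DeltaSchur

/-- Let `1 ≤ n ≤ 3`.  The modified Macdonald polynomials of the partitions of `n` exist and are unique,
and for every partition `λ` the operator `Delta_{s_λ}` exists in degree `n`, and every Schur coefficient
of `Delta_{s_λ} e_n` is a polynomial in `q, t` with nonnegative integer coefficients; it is even a sum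
of Schur polynomials `s_{(a + b, b)}(q, t)`. -/
theorem result (n : ℕ) (h1 : 1 ≤ n) (h3 : n ≤ 3) :
    (∀ μ : List ℕ, IsPar μ → μ.sum = n → ∃! H : Lam, IsMac μ H) ∧
    ∀ l : List ℕ, IsPar l → (∃ D : Lam →ₗ[K] Lam, IsDelta n (schur l) D) ∧
      ∀ D : Lam →ₗ[K] Lam, IsDelta n (schur l) D → ∀ β : List ℕ, IsPar β →
        hall (D (e n)) (schur β) ∈ Nqt ∧ hall (D (e n)) (schur β) ∈ Sqt := by
  have key : ∀ x : K, x ∈ Sqt → x ∈ Nqt ∧ x ∈ Sqt := fun x hx => ⟨Sqt_le hx, hx⟩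
  obtain rfl | rfl | rfl : n = 1 ∨ n = 2 ∨ n = 3 := by omega
  · refine ⟨fun μ h2 h4 => ?_, fun l hl => ⟨exists_delta1 _, fun D hD β hβ =>
      key _ (pos1 hl hβ hD)⟩⟩
    rw [par1 h2 h4]
    exact ⟨_, (isMac_1 _).2 rfl, fun H hH => (isMac_1 H).1 hH⟩
  · refine ⟨fun μ h2 h4 => ?_, fun l hl => ⟨exists_delta2 _, fun D hD β hβ =>
      key _ (pos2 hl hβ hD)⟩⟩
    rcases par2 h2 h4 with rfl | rfl
    · exact ⟨_, (isMac_2 _).2 rfl, fun H hH => (isMac_2 H).1 hH⟩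
    · exact ⟨_, (isMac_11 _).2 rfl, fun H hH => (isMac_11 H).1 hH⟩
  · refine ⟨fun μ h2 h4 => ?_, fun l hl => ⟨exists_delta3 _, fun D hD β hβ =>
      key _ (pos3 hl hβ hD)⟩⟩
    rcases par3 h2 h4 with rfl | rfl | rfl
    · exact ⟨_, (isMac_3 _).2 rfl, fun H hH => (isMac_3 H).1 hH⟩
    · exact ⟨_, (isMac_21 _).2 rfl, fun H hH => (isMac_21 H).1 hH⟩
    · exact ⟨_, (isMac_111 _).2 rfl, fun H hH => (isMac_111 H).1 hH⟩

end Pool.Agent.Results.MP_e83f70_co.UpToThree
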